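import Pool.Agent.Helper62.FO.Final
import Pool.Agent.Helper62.FO.Bound

/-!
# MP_12f184_an: the orders of flat outputs are unbounded for systems with 4 states and 2 inputs

The system `z₁' = l + k q`, `z₂' = q`, `k' = w`, `l' = l² - c q w` with `c = 2 P + 1` is flat, and
every flat output of it depends on a derivative of the inputs of order at least `2 P - 5`. So the
answer to Q1 is no.
-/

namespace Pool.Agent.Results.MP_12f184_an.UnboundedOrder

open FlatOrder
open scoped ContDiff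

theorem result :
    (∀ P : ℕ, IsAnalyticSystem (sys (2 * P + 1)) ∧ IsFlatC ω (sys (2 * P + 1)) ∧
      ∀ (W : Set (Jet 4 2)) (r : ℕ) (h : Fin 2 → Jet 4 2 → ℝ), IsOpen W → W.Nonempty →
        IsFlatOutputC ∞ (sys (2 * P + 1)) W r h → 2 * P ≤ r + 5) ∧
    ∀ K : WithTop ℕ∞, K = ∞ ∨ K = ω →
      ¬ ∀ n m : ℕ, ∃ κ : ℕ, ∀ f : (Fin n → ℝ) → (Fin m → ℝ) → (Fin n → ℝ),
        IsAnalyticSystem f → IsFlatC K f → IsRFlatC K f κ := by
  have hB : OrderBound := fun {K} _ _ P J y r h0 h1 h2 h3 h4 h5 =>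
    order_bound P J y r h0 h1 h2 h3 h4 h5
  exact ⟨fun P => ⟨isAnalyticSystem_sys _, (isFlat_sys P).toC, fun W r h hW hne hfl =>
    lower_bound hB P W r h hW hne hfl⟩, fun K hK => unbounded hB K hK⟩

end Pool.Agent.Results.MP_12f184_an.UnboundedOrder
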